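import Pool.Agent.N523.SCDefs

/-!
# A regular self-complementary graph on 9 vertices, every vertex in exactly 2 triangles, with a
vertex that no isomorphism-permutation fixes
-/

set_option autoImplicit false

namespace Pool.Agent.Results.MP_b6be33_co.NineVertices

open Pool.Agent.N523.SC

/-- The rows of the adjacency matrix of the graph. -/
def rows : Fin 9 → List Bool := fun i =>
  match i with
  | 0 => [false, false, true, false, true, true, false, true, false]
  | 1 => [false, false, false, false, true, false, true, true, true]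
  | 2 => [true, false, false, true, true, false, true, false, false]
  | 3 => [false, false, true, false, false, true, true, false, true]
  | 4 => [true, true, true, false, false, false, false, false, true]
  | 5 => [true, false, false, true, false, false, true, true, false]
  | 6 => [false, true, true, true, false, true, false, false, false]
  | 7 => [true, true, false, false, false, true, false, false, true]
  | 8 => [false, true, false, true, true, false, false, true, false]

/-- Boolean adjacency. -/
def adjB (i j : Fin 9) : Bool := (rows i).getD j.val false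

/-- The counterexample graph. -/
def G : SimpleGraph (Fin 9) where
  Adj i j := adjB i j = true
  symm := ⟨by decide⟩
  loopless := ⟨by decide⟩

instance : DecidableRel G.Adj := fun i j => inferInstanceAs (Decidable (adjB i j = true))

/-- The permutation (0)(1 2 3 4)(5 6 7 8). -/
def P : Equiv.Perm (Fin 9) where
  toFun := ![0, 2, 3, 4, 1, 6, 7, 8, 5]
  invFun := ![0, 4, 1, 2, 3, 8, 5, 6, 7]
  left_inv := by decide
  right_inv := by decide

theorem isoP : IsoPerm G P := by
  unfold IsoPerm; decide

theorem selfCompl : SelfCompl G := by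
  refine ⟨⟨P, ?_⟩⟩
  intro a b
  rw [SimpleGraph.compl_adj]
  by_cases h : a = b
  · subst h; simp
  · have h1 := isoP a b h
    have h2 : P a ≠ P b := fun h3 => h (P.injective h3)
    tauto

theorem tri (v : Fin 9) : ((Finset.univ : Finset (Finset (Fin 9))).filter
    (fun s => G.IsNClique 3 s ∧ v ∈ s)).card = 2 := by
  revert v; decide

theorem triangles (v : Fin 9) : (TrianglesAt G v).ncard = 2 := by
  have h : TrianglesAt G v = ((Finset.univ : Finset (Finset (Fin 9))).filter
      (fun s => G.IsNClique 3 s ∧ v ∈ s) : Finset (Finset (Fin 9))) := by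
    ext s
    simp [TrianglesAt]
  rw [h, Set.ncard_coe_finset, tri v]

theorem deg (v : Fin 9) : (G.neighborSet v).ncard = 4 := by
  have h : G.neighborSet v = ((Finset.univ : Finset (Fin 9)).filter
      (fun w => G.Adj v w) : Finset (Fin 9)) := by
    ext s
    simp
  rw [h, Set.ncard_coe_finset]
  clear h
  revert v; decide

theorem key : ∀ x y z : Fin 9, x ≠ 1 → y ≠ 1 → z ≠ 1 → ¬ G.Adj 1 x → ¬ G.Adj 1 y →
    ¬ G.Adj 1 z → x ≠ y → x ≠ z → ¬ G.Adj x y → ¬ G.Adj x z → y = z := by
  decide

theorem notFixed : (1 : Fin 9) ∉ FixSet G := by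
  rintro ⟨Q, hQ, h1⟩
  have e8 : ¬ G.Adj 1 (Q 8) := by
    have := (hQ 1 8 (by decide)).1 (by decide); rwa [h1] at this
  have e4 : ¬ G.Adj 1 (Q 4) := by
    have := (hQ 1 4 (by decide)).1 (by decide); rwa [h1] at this
  have e7 : ¬ G.Adj 1 (Q 7) := by
    have := (hQ 1 7 (by decide)).1 (by decide); rwa [h1] at this
  have e84 : ¬ G.Adj (Q 8) (Q 4) := (hQ 8 4 (by decide)).1 (by decide)
  have e87 : ¬ G.Adj (Q 8) (Q 7) := (hQ 8 7 (by decide)).1 (by decide)
  have hne : ∀ a b : Fin 9, a ≠ b → Q a ≠ Q b := fun a b h h' => h (Q.injective h')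
  have n8 : Q 8 ≠ 1 := by have := hne 8 1 (by decide); rwa [h1] at this
  have n4 : Q 4 ≠ 1 := by have := hne 4 1 (by decide); rwa [h1] at this
  have n7 : Q 7 ≠ 1 := by have := hne 7 1 (by decide); rwa [h1] at this
  exact hne 4 7 (by decide) (key (Q 8) (Q 4) (Q 7) n8 n4 n7 e8 e4 e7
    (hne 8 4 (by decide)) (hne 8 7 (by decide)) e84 e87)

/-- There are `k` and a regular self-complementary graph on `4k+1` vertices all of whose vertices
lie in exactly `k(k-1)` triangles, and a vertex of it that is fixed by no
isomorphism-permutation. -/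
theorem result : ∃ (k : ℕ) (G : SimpleGraph (Fin (4 * k + 1))),
    SelfCompl G ∧ (∀ v, (G.neighborSet v).ncard = 2 * k) ∧
    (∀ v, (TrianglesAt G v).ncard = k * (k - 1)) ∧ ∃ v, v ∉ FixSet G :=
  ⟨2, G, selfCompl, deg, triangles, 1, notFixed⟩

end Pool.Agent.Results.MP_b6be33_co.NineVertices
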